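import Pool.Agent.Lib.MP_e486a8_co.Mirror

/-!
Every card is at the first or the third place once if and only if every card is there
at arbitrarily late stages.
-/

namespace Pool.Agent.Lib.MP_e486a8_co.Old.OnceIffOften

open Pool.Agent.Lib.MP_e486a8_co.Mirror

theorem result (deck : ℕ → ℕ → ℕ) (h0 : ∀ i, deck 0 i = i + 1)
    (hs : ∀ m i, deck (m + 1) i =
      if i < 2 * (m + 1) then
        (if i % 2 = 0 then deck m (m + 1 + i / 2) else deck m (i / 2))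
      else deck m i) :
    (∀ c : ℕ, 1 ≤ c → ∃ m : ℕ, deck m 0 = c ∨ deck m 2 = c) ↔
      (∀ c : ℕ, 1 ≤ c → ∀ N : ℕ, ∃ m : ℕ, N ≤ m ∧ (deck m 0 = c ∨ deck m 2 = c)) := by
  have S : Shuffle deck := ⟨h0, hs⟩
  constructor
  · intro h c hc N
    by_contra hN
    obtain ⟨m, hm⟩ := h c hc
    obtain ⟨y, hy, e⟩ := S.partner c m N hm fun s hs =>
      ⟨fun h1 => hN ⟨s, hs, Or.inl h1⟩, fun h1 => hN ⟨s, hs, Or.inr h1⟩⟩
    obtain ⟨s, h1 | h1⟩ := h y hy
    · exact (e s).1 h1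
    · exact (e s).2 h1
  · intro h c hc
    obtain ⟨m, -, hm⟩ := h c hc 0
    exact ⟨m, hm⟩

end Pool.Agent.Lib.MP_e486a8_co.Old.OnceIffOften
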